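import Pool.Agent.Helper51.EA.Defs
import Pool.Agent.Helper5.RM.CONC
import Pool.Agent.Helper5.RM.DL

/-!
# Project EA, block A2: fluctuations of the conditional variance of one dyadic block

`fl_minus`: `conc` for `Lam = P`, `Nn = {m ≤ N / H : m ∈ A squarefree}`, then Markov's inequality with the power `2k`.
-/

set_option autoImplicit false

namespace Pool.Agent.Helper51.EA

open Finset Pool.Agent.Helper5.RM Pool.Agent.Helper5.RS

/-- the cofactors -/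
noncomputable def Nn54 (N : ℕ) (A : Finset ℕ) (H : ℕ) : Finset ℕ :=
  (Finset.Icc 1 (N / H)).filter (fun m => m ∈ A ∧ Squarefree m)

/-- the lower limit -/
noncomputable def lo54 (m : ℕ) : ℕ := m.primeFactors.sup id + 1

/-- the upper limit -/
def hi54 (N m : ℕ) : ℕ := N / m

lemma MG_eq54 (N : ℕ) (A : Finset ℕ) (H p : ℕ) (hH : 0 < H) (hHp : H ≤ p) :
    MG N A p = (Nn54 N A H).filter (fun m => lo54 m ≤ p ∧ p ≤ hi54 N m) := by
  classical
  have hp0 : 0 < p := by omega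
  ext m
  unfold MG Nn54 lo54 hi54
  simp only [Finset.mem_filter, Finset.mem_Icc]
  constructor
  · rintro ⟨⟨h1, h2⟩, hA, h3, h4⟩
    have h2' : m * p ≤ N := (Nat.le_div_iff_mul_le hp0).1 h2
    refine ⟨⟨⟨h1, ?_⟩, hA, h3⟩, ?_, ?_⟩
    · rw [Nat.le_div_iff_mul_le hH]
      exact (Nat.mul_le_mul_left m hHp).trans h2'
    · have : m.primeFactors.sup id < p := by
        rw [Finset.sup_lt_iff (by simpa using hp0)]
        intro q hq
        exact h4 q hq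
      omega
    · rw [Nat.le_div_iff_mul_le (by omega), mul_comm]
      exact h2'
  · rintro ⟨⟨⟨h1, h2⟩, hA, h3⟩, h4, h5⟩
    refine ⟨⟨h1, ?_⟩, hA, h3, ?_⟩
    · rw [Nat.le_div_iff_mul_le hp0]
      rw [Nat.le_div_iff_mul_le (by omega), mul_comm] at h5
      exact h5
    · intro q hq
      have : q ≤ m.primeFactors.sup id := Finset.le_sup (f := id) hq
      omega

lemma basics54 (N : ℕ) (B H : ℕ) (hB : 128 * LL N ≤ B) (hH1 : B ≤ H) (hH2 : B * H ≤ N) :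
    1 ≤ LL N ∧ 0 < B ∧ 0 < H ∧ H ≤ N ∧ 1 ≤ N / H ∧ N / H ≤ N ∧ (H : ℝ) * ((N / H : ℕ) : ℝ) ≤ N ∧
      (N : ℝ) ≤ 2 * (H * ((N / H : ℕ) : ℝ)) := by
  have hL1 : 1 ≤ LL N := by
    unfold LL
    have := Real.log_natCast_nonneg N
    linarith
  have hBR : (0 : ℝ) < B := by linarith
  have hB0 : 0 < B := by exact_mod_cast hBR
  have hH0 : 0 < H := by omega
  have hHN : H ≤ N := le_trans (Nat.le_mul_of_pos_left H hB0) hH2
  have hY1 : 1 ≤ N / H := (Nat.one_le_div_iff hH0).2 hHN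
  have hYN : N / H ≤ N := Nat.div_le_self _ _
  refine ⟨hL1, hB0, hH0, hHN, hY1, hYN, ?_, ?_⟩
  · have : H * (N / H) ≤ N := Nat.mul_div_le N H
    exact_mod_cast this
  · have h1 : N < (N / H + 1) * H := by
      have h2 := Nat.div_add_mod N H
      have h3 := Nat.mod_lt N hH0
      nlinarith
    have h2 : (N / H + 1) * H ≤ 2 * (N / H) * H := by
      apply Nat.mul_le_mul_right
      omega
    have h3 : N ≤ 2 * (N / H) * H := h1.le.trans h2
    have h4 : (N : ℝ) ≤ 2 * ((N / H : ℕ) : ℝ) * H := by exact_mod_cast h3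
    linarith

/-- the hypothesis `hγ` of `conc` -/
lemma hsum54 (N : ℕ) (θ D : ℝ) (hD4 : 4 ≤ D) (hDN : D ≤ N) (hF : Far N θ D) (B H : ℕ)
    (hB : 128 * LL N ≤ B) (hBD : (B : ℝ) ≤ D) (hH1 : B ≤ H) (hH2 : B * H ≤ N) :
    ((N / H : ℕ) : ℝ) + 2 * ∑ j ∈ Finset.Ico 1 H, mn ((N / H : ℕ) : ℝ) (j * θ) ≤
      H * ((N / H : ℕ) : ℝ) * (128 * LL N / B) := by
  obtain ⟨hL1, hB0, hH0, hHN, hY1, hYN, hYle, hYge⟩ := basics54 N B H hB hH1 hH2
  set Y := N / H with hY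
  set L := LL N with hL
  have hBR : (0 : ℝ) < B := by exact_mod_cast hB0
  have hHr : (0 : ℝ) < H := by exact_mod_cast hH0
  have hYR : (1 : ℝ) ≤ Y := by exact_mod_cast hY1
  have hD0 : 0 < D := by linarith
  have hL0 : 0 < L := by linarith
  have hHB : (B : ℝ) ≤ H := by exact_mod_cast hH1
  have hBH : (B : ℝ) * H ≤ N := by exact_mod_cast hH2
  have h1 : ∑ j ∈ Finset.Ico 1 H, mn (Y : ℝ) (j * θ) ≤ ∑ j ∈ Finset.Icc 1 H, mn (Y : ℝ) (j * θ) := by
    refine Finset.sum_le_sum_of_subset_of_nonneg ?_ fun j _ _ => mn_nonneg (by positivity) _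
    intro j hj
    rw [Finset.mem_Ico] at hj
    rw [Finset.mem_Icc]
    omega
  have h2 := dl N θ D (by linarith) hDN hF (Y : ℝ) (by positivity) H
  rw [← hL] at h2
  set x : ℝ := H * Y with hx
  have hx0 : 0 < x := by positivity
  have a1 : (N : ℝ) / D ≤ 2 * x / B := by
    rw [div_le_div_iff₀ hD0 hBR]
    calc (N : ℝ) * B ≤ (2 * x) * D := by
          apply mul_le_mul hYge hBD (by positivity) (by positivity)
      _ = 2 * x * D := by ring
  have a2 : (H : ℝ) ≤ 2 * x / B := by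
    rw [le_div_iff₀ hBR]
    calc (H : ℝ) * B = B * H := by ring
      _ ≤ N := hBH
      _ ≤ 2 * x := hYge
  have a3 : (Y : ℝ) ≤ x / B := by
    rw [le_div_iff₀ hBR, hx, mul_comm (Y : ℝ)]
    gcongr
  have a4 : (H : ℝ) * Y / D ≤ x / B := by
    rw [← hx]
    gcongr
  have h3 : (N : ℝ) / D + H + Y + H * Y / D ≤ 6 * (x / B) := by
    have e1 : 2 * x / B = 2 * (x / B) := by ring
    rw [e1] at a1 a2
    linarith
  have hxB : 0 ≤ x / B := by positivity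
  have h4 : 8 * L * ((N : ℝ) / D + H + Y + H * Y / D) ≤ 8 * L * (6 * (x / B)) := by
    apply mul_le_mul_of_nonneg_left h3 (by positivity)
  have h5 : (Y : ℝ) ≤ L * (x / B) := a3.trans (le_mul_of_one_le_left hxB hL1)
  calc (Y : ℝ) + 2 * ∑ j ∈ Finset.Ico 1 H, mn Y (j * θ) ≤ L * (x / B) + 2 * (8 * L * (6 * (x / B))) := by linarith
    _ = 97 * (L * (x / B)) := by ring
    _ ≤ 128 * (L * (x / B)) := by
        have : 0 ≤ L * (x / B) := by positivity
        linarith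
    _ = x * (128 * L / B) := by ring

/-- Markov's inequality in the form needed here -/
lemma mark54 (N : ℕ) (F : Finset ℕ → ℝ) (k : ℕ) (c G t x : ℝ) (hc0 : 0 ≤ c) (hc : c ≤ 1000) (hG : 0 ≤ G)
    (hF : ∀ T, 0 ≤ F T) (hx0 : 0 ≤ x) (hx : x ≤ N) (ht : 0 < t)
    (hav : av (PP N) (fun T => F T ^ (2 * k)) ≤ (c * x ^ 2 * G) ^ k) :
    pr (PP N) (fun T => t < F T) ≤ (1000 * (N : ℝ) ^ 2 * G / t ^ 2) ^ k := by
  have hav2 : av (PP N) (fun T => (F T ^ 2) ^ k) ≤ (c * x ^ 2 * G) ^ k := by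
    refine le_trans (le_of_eq ?_) hav
    exact av_congr fun T _ => by rw [pow_mul]
  have hmark := markov_pow (S := PP N) (F := fun T => F T ^ 2)
    (c := t ^ 2) k (fun T _ => by positivity) (by positivity) hav2
  have h1 : (c * x ^ 2 * G) ^ k / (t ^ 2) ^ k ≤ (1000 * (N : ℝ) ^ 2 * G / t ^ 2) ^ k := by
    rw [← div_pow]
    apply pow_le_pow_left₀ (by positivity)
    apply div_le_div_of_nonneg_right _ (by positivity)
    apply mul_le_mul_of_nonneg_right _ hG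
    have h2 : x ^ 2 ≤ (N : ℝ) ^ 2 := by gcongr
    have h3 : 0 ≤ x ^ 2 := by positivity
    calc c * x ^ 2 ≤ 1000 * x ^ 2 := mul_le_mul_of_nonneg_right hc h3
      _ ≤ 1000 * (N : ℝ) ^ 2 := by linarith
  refine le_trans (le_trans (pr_mono ?_) hmark) h1
  intro T _ hT
  exact pow_le_pow_left₀ ht.le hT.le 2

theorem fl_minus (N : ℕ) (θ D : ℝ) (hD4 : 4 ≤ D) (hDN : D ≤ N) (hF : Far N θ D) (k w : ℕ) (η : ℝ) (hk : 1 ≤ k) (hη : 0 < η)
    (hη1 : η ≤ 1) (hw : (4 * (k : ℝ)) ^ (1 + η) ≤ w) (B H : ℕ) (hB : 128 * LL N ≤ B) (hBD : (B : ℝ) ≤ D)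
    (hH1 : B ≤ H) (hH2 : B * H ≤ N) (A P : Finset ℕ) (hP : ∀ p ∈ P, p.Prime ∧ H ≤ p ∧ p < 2 * H) (t : ℝ) (ht : 0 < t) :
    pr (PP N) (fun T => t < |∑ p ∈ P, ‖XG N A θ p T‖ ^ 2 - ∑ p ∈ P, ((MG N A p).card : ℝ)|) ≤
      (1000 * (N : ℝ) ^ 2 * LL N ^ (2 * w + 5) * (128 * LL N / B) ^ (η / 4) / t ^ 2) ^ k := by
  obtain ⟨hL1, hB0, hH0, hHN, hY1, hYN, hYle, hYge⟩ := basics54 N B H hB hH1 hH2
  have hsum := hsum54 N θ D hD4 hDN hF B H hB hBD hH1 hH2
  have hBR : (0 : ℝ) < B := by exact_mod_cast hB0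
  have hHr : (0 : ℝ) < H := by exact_mod_cast hH0
  have hYR : (1 : ℝ) ≤ ((N / H : ℕ) : ℝ) := by exact_mod_cast hY1
  have hγ1 : 128 * LL N / B ≤ 1 := by
    rw [div_le_one hBR]; exact hB
  have hlogH : 1 + Real.log H ≤ LL N := by
    unfold LL
    have hHN' : (H : ℝ) ≤ N := by exact_mod_cast hHN
    have := Real.log_le_log hHr hHN'
    linarith
  have hlogY : 1 + Real.log ((N / H : ℕ) : ℝ) ≤ LL N := by
    unfold LL
    have hYN' : ((N / H : ℕ) : ℝ) ≤ N := by exact_mod_cast hYN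
    have := Real.log_le_log (by linarith) hYN'
    linarith
  have hconc := conc k hk (PP N) H (N / H) hH0 hY1 P (Nn54 N A H) lo54 (hi54 N) θ (128 * LL N / B) η (LL N) w
    (fun l hl => (hP l hl).2)
    (by
      intro n hn
      unfold Nn54 at hn
      rw [Finset.mem_filter, Finset.mem_Icc] at hn
      exact ⟨hn.1.1, hn.1.2, hn.2.2, primeFactors_subset_PP (hn.1.2.trans hYN)⟩)
    hsum hγ1 hη hη1 hw hlogH hlogY
  have hVV : ∀ T, ∑ p ∈ P, ‖XG N A θ p T‖ ^ 2 = VV P (Nn54 N A H) lo54 (hi54 N) θ T := by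
    intro T
    unfold VV XG
    exact Finset.sum_congr rfl fun p hp => by rw [MG_eq54 N A H p hH0 (hP p hp).2.1]
  have hmm : ∑ p ∈ P, ((MG N A p).card : ℝ) = mm P (Nn54 N A H) lo54 (hi54 N) := by
    unfold mm
    exact Finset.sum_congr rfl fun p hp => by rw [MG_eq54 N A H p hH0 (hP p hp).2.1]
  have hG : 0 ≤ LL N ^ (2 * w + 5) * (128 * LL N / B) ^ (η / 4) := by positivity
  have hfin := mark54 N (fun T => |VV P (Nn54 N A H) lo54 (hi54 N) θ T - mm P (Nn54 N A H) lo54 (hi54 N)|) k 18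
    (LL N ^ (2 * w + 5) * (128 * LL N / B) ^ (η / 4)) t ((H : ℝ) * ((N / H : ℕ) : ℝ)) (by norm_num) (by norm_num) hG
    (fun T => abs_nonneg _) (by positivity) hYle ht (by
      refine hconc.trans (le_of_eq ?_)
      congr 1
      ring)
  have e1 : 1000 * (N : ℝ) ^ 2 * LL N ^ (2 * w + 5) * (128 * LL N / B) ^ (η / 4) / t ^ 2 =
      1000 * (N : ℝ) ^ 2 * (LL N ^ (2 * w + 5) * (128 * LL N / B) ^ (η / 4)) / t ^ 2 := by ring
  rw [e1, hmm]
  refine le_trans (pr_mono ?_) hfin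
  intro T _ hT
  rw [hVV T] at hT
  exact hT

end Pool.Agent.Helper51.EA
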