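import Pool.Agent.Helper5.RM.AZ2

/-!
# Project EA, block B2: Azuma with directions

`α = π i / M`, `i < M`: some `|Re (e^{-iα} S)| ≥ ‖S‖ cos (π/M)`; `az_exp` with `E = ℝ`; `∑ (Re e^{-iα} v)² ≤ (∑ ‖v‖² + ‖∑ v²‖)/2`.
-/

set_option autoImplicit false

namespace Pool.Agent.Helper51.EA

open Finset Pool.Agent.Helper5.RM

/-- the coordinate of `z` in the direction `α` -/
private noncomputable def dr54 (α : ℝ) (z : ℂ) : ℝ := Real.cos α * z.re + Real.sin α * z.im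

private lemma dr_sum54 (α : ℝ) (S : Finset ℕ) (c : ℕ → ℝ) (v : ℕ → ℂ) :
    dr54 α (∑ p ∈ S, (c p : ℂ) * v p) = ∑ p ∈ S, c p * dr54 α (v p) := by
  unfold dr54
  rw [Complex.re_sum, Complex.im_sum, mul_sum, mul_sum, ← sum_add_distrib]
  refine sum_congr rfl fun p _ => ?_
  rw [Complex.re_ofReal_mul, Complex.im_ofReal_mul]
  ring

private lemma dr_neg54 (α : ℝ) (z : ℂ) : dr54 α (-z) = -dr54 α z := by
  unfold dr54
  rw [Complex.neg_re, Complex.neg_im]
  ring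

private lemma dr_arg54 (α : ℝ) (z : ℂ) : dr54 α z = ‖z‖ * Real.cos (Complex.arg z - α) := by
  unfold dr54
  rw [Real.cos_sub, mul_add, ← mul_assoc, ← mul_assoc, Complex.norm_mul_cos_arg, Complex.norm_mul_sin_arg]
  ring

/-- one of the directions is good -/
private lemma dir54 (M : ℕ) (hM : 3 ≤ M) (z : ℂ) :
    ∃ i ∈ range M, ‖z‖ * Real.cos (Real.pi / M) ≤ |dr54 (Real.pi * i / M) z| := by
  have hπ := Real.pi_pos
  have hM0 : (0 : ℝ) < M := by
    have : 0 < M := by omega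
    exact_mod_cast this
  have key : ∀ w : ℂ, 0 ≤ w.im → ∃ i ∈ range M, ‖w‖ * Real.cos (Real.pi / M) ≤ dr54 (Real.pi * i / M) w := by
    intro w hw
    have ha0 : 0 ≤ Complex.arg w := Complex.arg_nonneg_iff.2 hw
    have ha1 : Complex.arg w ≤ Real.pi := Complex.arg_le_pi w
    have hstep : ∀ i : ℕ, Real.pi * i / M ≤ Complex.arg w → Complex.arg w ≤ Real.pi * i / M + Real.pi / M →
        ‖w‖ * Real.cos (Real.pi / M) ≤ dr54 (Real.pi * i / M) w := by
      intro i h1 h2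
      rw [dr_arg54]
      refine mul_le_mul_of_nonneg_left ?_ (norm_nonneg _)
      have h3 : Real.pi / M ≤ Real.pi := by
        rw [div_le_iff₀ hM0]
        have : (1 : ℝ) ≤ M := by
          have : 1 ≤ M := by omega
          exact_mod_cast this
        nlinarith
      exact Real.cos_le_cos_of_nonneg_of_le_pi (by linarith) h3 (by linarith)
    set x : ℝ := Complex.arg w * M / Real.pi with hx
    have hx0 : 0 ≤ x := by positivity
    have hxe : Complex.arg w = Real.pi * x / M := by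
      rw [hx]
      field_simp
    by_cases hi : ⌊x⌋₊ < M
    · refine ⟨⌊x⌋₊, mem_range.2 hi, hstep _ ?_ ?_⟩
      · rw [hxe]
        have := Nat.floor_le hx0
        gcongr
      · rw [hxe, ← add_div]
        have h1 := (Nat.lt_floor_add_one x).le
        have h2 : Real.pi * x ≤ Real.pi * (⌊x⌋₊ : ℝ) + Real.pi := by
          nlinarith
        gcongr
    · have h1 : (M : ℝ) ≤ x := (Nat.cast_le.2 (not_lt.1 hi)).trans (Nat.floor_le hx0)
      have h2 : Real.pi ≤ Complex.arg w := by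
        rw [hxe, le_div_iff₀ hM0]
        nlinarith
      have h3 : Complex.arg w = Real.pi := le_antisymm ha1 h2
      have h4 : ((M - 1 : ℕ) : ℝ) = M - 1 := by
        rw [Nat.cast_sub (by omega), Nat.cast_one]
      have h5 : Real.pi * ((M - 1 : ℕ) : ℝ) / M + Real.pi / M = Real.pi := by
        rw [h4]
        field_simp
        ring
      have h6 : 0 < Real.pi / M := by positivity
      refine ⟨M - 1, mem_range.2 (by omega), hstep _ ?_ ?_⟩
      · rw [h3]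
        linarith
      · rw [h3, h5]
  rcases le_total 0 z.im with h | h
  · obtain ⟨i, hi, h1⟩ := key z h
    exact ⟨i, hi, h1.trans (le_abs_self _)⟩
  · obtain ⟨i, hi, h1⟩ := key (-z) (by rw [Complex.neg_im]; linarith)
    refine ⟨i, hi, ?_⟩
    rw [norm_neg, dr_neg54] at h1
    exact h1.trans (neg_le_abs _)

/-- the sum of the squares in a direction -/
private lemma sq54 (α : ℝ) (S : Finset ℕ) (v : ℕ → ℂ) :
    ∑ p ∈ S, dr54 α (v p) ^ 2 ≤ (∑ p ∈ S, ‖v p‖ ^ 2 + ‖∑ p ∈ S, v p ^ 2‖) / 2 := by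
  have hcs : Real.cos α ^ 2 + Real.sin α ^ 2 = 1 := by
    rw [add_comm]
    exact Real.sin_sq_add_cos_sq α
  have e1 : ∀ p, dr54 α (v p) ^ 2 = ‖v p‖ ^ 2 / 2 + dr54 (2 * α) (v p ^ 2) / 2 := by
    intro p
    unfold dr54
    rw [Complex.sq_norm, Complex.normSq_apply, Real.cos_two_mul, Real.sin_two_mul, pow_two (v p), Complex.mul_re,
      Complex.mul_im]
    have h2 : Real.sin α ^ 2 = 1 - Real.cos α ^ 2 := by linarith
    have : (Real.cos α * (v p).re + Real.sin α * (v p).im) ^ 2 = Real.cos α ^ 2 * (v p).re ^ 2 +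
        Real.sin α ^ 2 * (v p).im ^ 2 + 2 * Real.sin α * Real.cos α * ((v p).re * (v p).im) := by ring
    rw [this, h2]
    ring
  have e2 : ∑ p ∈ S, dr54 (2 * α) (v p ^ 2) = dr54 (2 * α) (∑ p ∈ S, v p ^ 2) := by
    have := dr_sum54 (2 * α) S (fun _ => 1) (fun p => v p ^ 2)
    simp only [Complex.ofReal_one, one_mul] at this
    exact this.symm
  have e3 : dr54 (2 * α) (∑ p ∈ S, v p ^ 2) ≤ ‖∑ p ∈ S, v p ^ 2‖ := by
    rw [dr_arg54]
    calc ‖∑ p ∈ S, v p ^ 2‖ * Real.cos (Complex.arg (∑ p ∈ S, v p ^ 2) - 2 * α) ≤ ‖∑ p ∈ S, v p ^ 2‖ * 1 :=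
          mul_le_mul_of_nonneg_left (Real.cos_le_one _) (norm_nonneg _)
      _ = ‖∑ p ∈ S, v p ^ 2‖ := mul_one _
  calc ∑ p ∈ S, dr54 α (v p) ^ 2 = (∑ p ∈ S, ‖v p‖ ^ 2 + ∑ p ∈ S, dr54 (2 * α) (v p ^ 2)) / 2 := by
        rw [← sum_add_distrib, sum_div]
        exact sum_congr rfl fun p _ => by rw [e1]; ring
    _ ≤ (∑ p ∈ S, ‖v p‖ ^ 2 + ‖∑ p ∈ S, v p ^ 2‖) / 2 := by
        rw [e2]
        linarith

theorem az_dir (S : Finset ℕ) (v : ℕ → Finset ℕ → ℂ) (hv : ∀ p ∈ S, Pred p (v p)) (M : ℕ) (hM : 3 ≤ M) (t v0 : ℝ)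
    (ht : 0 ≤ t) (hv0 : 0 < v0) :
    pr S (fun T => t < ‖∑ p ∈ S, (sg T p : ℂ) * v p T‖ ∧
      (∑ p ∈ S, ‖v p T‖ ^ 2 + ‖∑ p ∈ S, v p T ^ 2‖) / 2 ≤ v0) ≤
      2 * M * Real.exp (-(t * Real.cos (Real.pi / M)) ^ 2 / (2 * v0)) := by
  have hπ := Real.pi_pos
  have hM0 : (3 : ℝ) ≤ M := by exact_mod_cast hM
  have hc0 : 0 ≤ Real.cos (Real.pi / M) := by
    refine Real.cos_nonneg_of_neg_pi_div_two_le_of_le ?_ ?_
    · have : 0 ≤ Real.pi / M := by positivity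
      linarith
    · rw [div_le_div_iff₀ (by linarith) two_pos]
      nlinarith
  set c : ℝ := t * Real.cos (Real.pi / M) with hc
  have hcn : 0 ≤ c := mul_nonneg ht hc0
  set lam : ℝ := c / v0 with hlam
  have hl0 : 0 ≤ lam := div_nonneg hcn hv0.le
  -- one direction
  have hone : ∀ i ∈ range M, pr S (fun T => c ≤ |dr54 (Real.pi * i / M) (∑ p ∈ S, (sg T p : ℂ) * v p T)| ∧
      (∑ p ∈ S, ‖v p T‖ ^ 2 + ‖∑ p ∈ S, v p T ^ 2‖) / 2 ≤ v0) ≤ 2 * Real.exp (-c ^ 2 / (2 * v0)) := by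
    intro i _
    set α : ℝ := Real.pi * i / M with hα
    let w : ℕ → Finset ℕ → ℝ := fun p T => dr54 α (v p T)
    have hw : ∀ p ∈ S, Pred p (w p) := by
      intro p hp T
      simp only [w]
      rw [hv p hp T]
    have hmain := az_exp S w hw lam
    have hE := markov (S := S) (c := Real.exp (c ^ 2 / (2 * v0)) / 2) (E := 1)
      (F := fun T => Real.cosh (lam * ‖∑ p ∈ S, sg T p • w p T‖) *
        Real.exp (-(lam ^ 2 * ∑ p ∈ S, ‖w p T‖ ^ 2) / 2))
      (fun T _ => mul_nonneg (Real.cosh_pos _).le (Real.exp_pos _).le) (by positivity) hmain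
    have e5 : 1 / (Real.exp (c ^ 2 / (2 * v0)) / 2) = 2 * Real.exp (-c ^ 2 / (2 * v0)) := by
      rw [neg_div, Real.exp_neg]
      field_simp
    rw [e5] at hE
    refine le_trans (pr_mono ?_) hE
    rintro T - ⟨h1, h2⟩
    have hm : ‖∑ p ∈ S, sg T p • w p T‖ = |dr54 α (∑ p ∈ S, (sg T p : ℂ) * v p T)| := by
      rw [dr_sum54 α S (fun p => sg T p) (fun p => v p T), Real.norm_eq_abs]
      rfl
    have hQ : ∑ p ∈ S, ‖w p T‖ ^ 2 ≤ v0 := by
      refine le_trans (le_of_eq ?_) ((sq54 α S fun p => v p T).trans h2)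
      refine sum_congr rfl fun p _ => ?_
      rw [Real.norm_eq_abs, sq_abs]
    rw [← hm] at h1
    set m := ‖∑ p ∈ S, sg T p • w p T‖ with hmd
    set Q := ∑ p ∈ S, ‖w p T‖ ^ 2 with hQd
    have h3 : Real.exp (lam * c) / 2 ≤ Real.cosh (lam * m) := by
      rw [Real.cosh_eq]
      have h5 : Real.exp (lam * c) ≤ Real.exp (lam * m) := Real.exp_le_exp.2 (mul_le_mul_of_nonneg_left h1 hl0)
      have h6 : 0 < Real.exp (-(lam * m)) := Real.exp_pos _
      linarith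
    have h7 : Real.exp (-(lam ^ 2 * v0) / 2) ≤ Real.exp (-(lam ^ 2 * Q) / 2) := by
      apply Real.exp_le_exp.2
      have : lam ^ 2 * Q ≤ lam ^ 2 * v0 := mul_le_mul_of_nonneg_left hQ (sq_nonneg _)
      linarith
    have e6 : c ^ 2 / (2 * v0) = lam * c + -(lam ^ 2 * v0) / 2 := by
      rw [hlam]
      field_simp
      ring
    calc Real.exp (c ^ 2 / (2 * v0)) / 2 = Real.exp (lam * c) / 2 * Real.exp (-(lam ^ 2 * v0) / 2) := by
          rw [e6, Real.exp_add]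
          ring
      _ ≤ Real.cosh (lam * m) * Real.exp (-(lam ^ 2 * Q) / 2) :=
          mul_le_mul h3 h7 (Real.exp_pos _).le (Real.cosh_pos _).le
  have hex : pr S (fun T => t < ‖∑ p ∈ S, (sg T p : ℂ) * v p T‖ ∧
      (∑ p ∈ S, ‖v p T‖ ^ 2 + ‖∑ p ∈ S, v p T ^ 2‖) / 2 ≤ v0) ≤
      pr S (fun T => ∃ i ∈ range M, c ≤ |dr54 (Real.pi * i / M) (∑ p ∈ S, (sg T p : ℂ) * v p T)| ∧
      (∑ p ∈ S, ‖v p T‖ ^ 2 + ‖∑ p ∈ S, v p T ^ 2‖) / 2 ≤ v0) := by
    refine pr_mono ?_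
    rintro T - ⟨h1, h2⟩
    obtain ⟨i, hi, h3⟩ := dir54 M hM (∑ p ∈ S, (sg T p : ℂ) * v p T)
    exact ⟨i, hi, (mul_le_mul_of_nonneg_right h1.le hc0).trans h3, h2⟩
  refine hex.trans ((pr_exists S (range M) _).trans ((sum_le_sum hone).trans (le_of_eq ?_)))
  rw [sum_const, card_range, nsmul_eq_mul]
  ring

end Pool.Agent.Helper51.EA
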