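import Pool.Agent.Helper11.EA3.Defs3
import Pool.Agent.Helper60.EA.V1
import Pool.Agent.Helper54.EA.A2

/-!
# Project EA, part 3, block V3: fluctuations of the two point sums of one dyadic block

`fl_two_of`: `conc_gen` (V1) for `c2 P`, `Nn54`, `lo54`, `hi54`, with the `L²` bound `psi_two` (V2) as a hypothesis, then Markov's
inequality with the power `2k`.
-/

set_option autoImplicit false

namespace Pool.Agent.Helper54.EA

open Finset Pool.Agent.Helper5.RM Pool.Agent.Helper5.RS Pool.Agent.Helper51.EA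

/-- the product of the two sums as a bilinear form in the signs -/
private lemma bil54 (N : ℕ) (A P : Finset ℕ) (H : ℕ) (θ θ' : ℝ) (T : Finset ℕ) (hH : 0 < H)
    (hP : ∀ p ∈ P, H ≤ p) :
    ∑ p ∈ P, XG N A θ p T * XG N A θ' p T =
      ∑ m ∈ Nn54 N A H, ∑ n ∈ Nn54 N A H, (rf T m : ℂ) * (rf T n : ℂ) * c2 P lo54 (hi54 N) θ θ' m n := by
  classical
  have h1 : ∀ p ∈ P, XG N A θ p T * XG N A θ' p T = ∑ m ∈ Nn54 N A H, ∑ n ∈ Nn54 N A H,
      (if max (lo54 m) (lo54 n) ≤ p ∧ p ≤ min (hi54 N m) (hi54 N n) then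
        (rf T m : ℂ) * (rf T n : ℂ) * e (p * (m * θ + n * θ')) else 0) := by
    intro p hp
    unfold XG
    rw [MG_eq54 N A H p hH (hP p hp), Finset.sum_mul_sum, Finset.sum_filter]
    refine Finset.sum_congr rfl fun m _ => ?_
    by_cases hm : lo54 m ≤ p ∧ p ≤ hi54 N m
    · rw [if_pos hm, Finset.sum_filter]
      refine Finset.sum_congr rfl fun n _ => ?_
      by_cases hn : lo54 n ≤ p ∧ p ≤ hi54 N n
      · rw [if_pos hn, if_pos ⟨max_le hm.1 hn.1, le_min hm.2 hn.2⟩]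
        have h2 : e ((p : ℝ) * (m * θ + n * θ')) = e (p * m * θ) * e (p * n * θ') := by
          rw [← e_add]
          congr 1
          ring
        rw [h2]
        ring
      · rw [if_neg hn, if_neg]
        rintro ⟨h3, h4⟩
        exact hn ⟨(le_max_right _ _).trans h3, h4.trans (min_le_right _ _)⟩
    · rw [if_neg hm]
      symm
      refine Finset.sum_eq_zero fun n _ => ?_
      rw [if_neg]
      rintro ⟨h3, h4⟩
      exact hm ⟨(le_max_left _ _).trans h3, h4.trans (min_le_left _ _)⟩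
  rw [Finset.sum_congr rfl h1, Finset.sum_comm]
  refine Finset.sum_congr rfl fun m _ => ?_
  rw [Finset.sum_comm]
  refine Finset.sum_congr rfl fun n _ => ?_
  unfold c2
  rw [Finset.mul_sum, Finset.sum_filter]

private lemma c2le54 (P : Finset ℕ) (lo hi : ℕ → ℕ) (θ θ' : ℝ) (H : ℕ) (hP : ∀ p ∈ P, H ≤ p ∧ p < 2 * H) (m n : ℕ) :
    ‖c2 P lo hi θ θ' m n‖ ≤ H := by
  unfold c2
  calc ‖∑ l ∈ P.filter (fun l => max (lo m) (lo n) ≤ l ∧ l ≤ min (hi m) (hi n)), e (l * (m * θ + n * θ'))‖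
      ≤ ∑ l ∈ P.filter (fun l => max (lo m) (lo n) ≤ l ∧ l ≤ min (hi m) (hi n)), ‖e (l * (m * θ + n * θ'))‖ :=
        norm_sum_le _ _
    _ = ((P.filter (fun l => max (lo m) (lo n) ≤ l ∧ l ≤ min (hi m) (hi n))).card : ℝ) := by
        simp [norm_e]
    _ ≤ H := by
        have h1 : P.filter (fun l => max (lo m) (lo n) ≤ l ∧ l ≤ min (hi m) (hi n)) ⊆ Finset.Ico H (2 * H) := by
          intro l hl
          have h2 := hP l (Finset.mem_filter.1 hl).1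
          exact Finset.mem_Ico.2 h2
        have h3 := Finset.card_le_card h1
        rw [Nat.card_Ico] at h3
        have h4 : 2 * H - H = H := by omega
        rw [h4] at h3
        exact_mod_cast h3

/-- V3 -/
theorem fl_two_of (hpsi : ∃ C : ℝ, 1 ≤ C ∧ ∀ (N : ℕ) (α α' D : ℝ) (A0 B H : ℕ) (Lam Nn : Finset ℕ) (lo hi : ℕ → ℕ),
    D ≤ N → Far N α D → Far N α' D → Far2 N A0 α α' D → 128 * LL N ≤ B → B ≤ A0 → (A0 : ℝ) * B ≤ D → B ≤ H →
    B * A0 * H ≤ N → (∀ l ∈ Lam, H ≤ l ∧ l < 2 * H) → (∀ n ∈ Nn, 1 ≤ n ∧ n ≤ N / H) →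
    ∑ q ∈ cp (N / H), ‖Psi Nn (N / H) (c2 Lam lo hi α α') q.1 q.2‖ ^ 2 ≤
        ((H : ℝ) * (N / H : ℕ)) ^ 2 * (C * LL N ^ 8 / Real.sqrt B) ∧
      ‖∑ n ∈ Nn, c2 Lam lo hi α α' n n‖ ^ 2 ≤ ((H : ℝ) * (N / H : ℕ)) ^ 2 * (C * LL N ^ 8 / Real.sqrt B)) :
    ∃ C : ℝ, 1 ≤ C ∧ ∀ (N : ℕ) (θ θ' D : ℝ) (A0 B H : ℕ), D ≤ N → Far N θ D → Far N θ' D → Far2 N A0 θ θ' D →
    128 * LL N ≤ B → B ≤ A0 → (A0 : ℝ) * B ≤ D → B ≤ H → B * A0 * H ≤ N → C * LL N ^ 8 ≤ Real.sqrt B →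
    ∀ (k w : ℕ) (η : ℝ), 1 ≤ k → 0 < η → η ≤ 1 → (4 * (k : ℝ)) ^ (1 + η) ≤ w →
    ∀ (A P : Finset ℕ), (∀ p ∈ P, p.Prime ∧ H ≤ p ∧ p < 2 * H) → ∀ t : ℝ, 0 < t →
    pr (PP N) (fun T => t < ‖∑ p ∈ P, XG N A θ p T * XG N A θ' p T‖) ≤
      (1000 * (N : ℝ) ^ 2 * LL N ^ (2 * w + 5) * (C * LL N ^ 8 / Real.sqrt B) ^ (η / 2) / t ^ 2) ^ k := by
  obtain ⟨C, hC1, hpsi⟩ := hpsi
  refine ⟨C, hC1, ?_⟩
  intro N θ θ' D A0 B H hDN hF hF' hF2 hB hBA hABD hBH hBAH hCB k w η hk hη hη1 hw A P hP t ht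
  have hA01 : 1 ≤ A0 := by
    have hL1 : 1 ≤ LL N := by
      unfold LL
      have := Real.log_natCast_nonneg N
      linarith
    have hBR : (0 : ℝ) < B := by linarith
    have hB0 : 0 < B := by exact_mod_cast hBR
    omega
  have hBH2 : B * H ≤ N := by
    refine le_trans ?_ hBAH
    apply Nat.mul_le_mul_right
    exact Nat.le_mul_of_pos_right B (by omega)
  obtain ⟨hL1, hB0, hH0, hHN, hY1, hYN, hYle, hYge⟩ := basics54 N B H hB hBH hBH2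
  have hBR : (0 : ℝ) < B := by exact_mod_cast hB0
  have hsB : 0 < Real.sqrt B := Real.sqrt_pos.2 hBR
  set γ : ℝ := C * LL N ^ 8 / Real.sqrt B with hγ
  have hγ0 : 0 < γ := by positivity
  have hγ1 : γ ≤ 1 := by
    rw [hγ, div_le_one hsB]
    exact hCB
  have hlogY : 1 + Real.log ((N / H : ℕ) : ℝ) ≤ LL N := by
    unfold LL
    have hYN' : ((N / H : ℕ) : ℝ) ≤ N := by exact_mod_cast hYN
    have hY1' : (1 : ℝ) ≤ ((N / H : ℕ) : ℝ) := by exact_mod_cast hY1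
    have := Real.log_le_log (by linarith) hYN'
    linarith
  have hNn : ∀ n ∈ Nn54 N A H, 1 ≤ n ∧ n ≤ N / H ∧ Squarefree n ∧ n.primeFactors ⊆ PP N := by
    intro n hn
    unfold Nn54 at hn
    rw [Finset.mem_filter, Finset.mem_Icc] at hn
    exact ⟨hn.1.1, hn.1.2, hn.2.2, primeFactors_subset_PP (hn.1.2.trans hYN)⟩
  obtain ⟨hps1, hps2⟩ := hpsi N θ θ' D A0 B H P (Nn54 N A H) lo54 (hi54 N) hDN hF hF' hF2 hB hBA hABD hBH hBAH
    (fun l hl => (hP l hl).2) (fun n hn => ⟨(hNn n hn).1, (hNn n hn).2.1⟩)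
  have hconc := conc_gen k hk (PP N) H (N / H) hH0 hY1 (Nn54 N A H) (c2 P lo54 (hi54 N) θ θ') γ η (LL N) w hNn
    (fun m _ n _ => c2le54 P lo54 (hi54 N) θ θ' H (fun l hl => (hP l hl).2) m n) hps2 hps1 hγ0 hγ1 hη hη1 hw hlogY
  have hG : 0 ≤ LL N ^ (2 * w + 5) * γ ^ (η / 2) := by positivity
  have hfin := mark54 N (fun T => ‖∑ p ∈ P, XG N A θ p T * XG N A θ' p T‖) k 1000
    (LL N ^ (2 * w + 5) * γ ^ (η / 2)) t ((H : ℝ) * ((N / H : ℕ) : ℝ)) (by norm_num) le_rfl hG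
    (fun T => norm_nonneg _) (by positivity) hYle ht (by
      refine (le_of_eq ?_).trans (hconc.trans (le_of_eq ?_))
      · exact av_congr fun T _ => by rw [bil54 N A P H θ θ' T hH0 (fun p hp => (hP p hp).2.1)]
      · congr 1
        ring)
  have e1 : 1000 * (N : ℝ) ^ 2 * LL N ^ (2 * w + 5) * γ ^ (η / 2) / t ^ 2 =
      1000 * (N : ℝ) ^ 2 * (LL N ^ (2 * w + 5) * γ ^ (η / 2)) / t ^ 2 := by ring
  rw [e1]
  exact hfin

end Pool.Agent.Helper54.EA
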